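import Mathlib
import Pool.Agent.N718.LB.FinStm

/-!
# LB/FIN: the final statement (helper424, for helper718)
-/

set_option autoImplicit false
set_option linter.all false

namespace Pool.Agent.N424.LB

open Finset Filter Topology
open Pool.Agent.N718.LB Pool.Agent.N718.LB.F

theorem gz (a b : ℤ) : Int.gcd (Int.gcd 0 a) b = Int.gcd a b := by
  simp only [Int.gcd, Int.natAbs_zero, Nat.gcd_zero_left, Int.natAbs_natCast]

theorem adm_iff (a b c : ℤ) : Adm ![a, b, c] ↔ Admissible a b c 0 := by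
  constructor
  · rintro ⟨h0, h1, h2, h3, h4⟩
    have e01 := h3 0 1 (by decide)
    have e02 := h3 0 2 (by decide)
    have e12 := h3 1 2 (by decide)
    rw [Int.isCoprime_iff_gcd_eq_one] at e01 e02 e12
    simp only [Fin.forall_fin_succ, Matrix.cons_val_zero, Matrix.cons_val_succ,
      IsEmpty.forall_iff, and_true] at h0 h1 h2
    simp [Matrix.cons_val_zero, Matrix.cons_val_one] at e01 e02 e12 h4
    refine ⟨h0.1, h0.2.1, h0.2.2, h1, h2, by simpa using h4, ?_, ?_, ?_, ?_⟩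
    · rw [e01]; simp
    · rw [gz]; exact e01
    · rw [gz]; exact e02
    · rw [gz]; exact e12
  · rintro ⟨h1, h2, h3, h4, h5, h6, -, h8, h9, h10⟩
    have e01 : IsCoprime a b := by rw [Int.isCoprime_iff_gcd_eq_one, ← gz]; exact h8
    have e02 : IsCoprime a c := by rw [Int.isCoprime_iff_gcd_eq_one, ← gz]; exact h9
    have e12 : IsCoprime b c := by rw [Int.isCoprime_iff_gcd_eq_one, ← gz]; exact h10
    refine ⟨?_, ?_, ?_, ?_, ?_⟩
    · intro i; fin_cases i <;> simpa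
    · intro h; exact h4 ⟨by simpa using h 0, by simpa using h 1, by simpa using h 2⟩
    · intro h; exact h5 ⟨by simpa using h 0, by simpa using h 1, by simpa using h 2⟩
    · intro i j hij
      fin_cases i <;> fin_cases j <;> simp at hij ⊢ <;>
        first | exact e01 | exact e02 | exact e12 | exact e01.symm | exact e02.symm | exact e12.symm
    · simpa using h6

open Classical in
theorem card_eq (A : ℕ) (Q : ℤ → ℤ → ℤ → Prop) :
    ((triples A).filter (fun t => Q t.1 t.2.1 t.2.2)).card =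
      ((V3 A).filter (fun a => Adm a ∧ Q (a 0) (a 1) (a 2))).card := by
  refine Finset.card_nbij' (fun t => ![t.1, t.2.1, t.2.2]) (fun a => (a 0, a 1, a 2)) ?_ ?_ ?_ ?_
  · intro t ht
    simp only [triples, coe_filter, mem_filter, mem_product, mem_Icc, Set.mem_ofPred_eq] at ht
    simp only [V3, coe_filter, Fintype.mem_piFinset, mem_Icc, Set.mem_ofPred_eq]
    refine ⟨?_, (adm_iff _ _ _).2 ht.1.2, by simpa using ht.2⟩
    intro i
    fin_cases i
    · simpa using ht.1.1.1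
    · simpa using ht.1.1.2.1
    · simpa using ht.1.1.2.2
  · intro a ha
    simp only [V3, coe_filter, Fintype.mem_piFinset, mem_Icc, Set.mem_ofPred_eq] at ha
    simp only [triples, coe_filter, mem_filter, mem_product, mem_Icc, Set.mem_ofPred_eq]
    refine ⟨⟨⟨ha.1 0, ha.1 1, ha.1 2⟩, ?_⟩, ha.2.2⟩
    rw [← adm_iff]
    have : ![a 0, a 1, a 2] = a := by
      ext i; fin_cases i <;> rfl
    rw [this]
    exact ha.2.1
  · intro t _
    rfl
  · intro a _
    ext i; fin_cases i <;> rfl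

open Classical in
theorem card_triples (A : ℕ) : (triples A).card = ((V3 A).filter (fun a => Adm a)).card := by
  have h := card_eq A (fun _ _ _ => True)
  simpa using h

theorem one_ (h3 : S_DENS) :
    ∃ c₀ : ℝ, 0 < c₀ ∧ ∀ᶠ A : ℕ in atTop, c₀ * (A : ℝ) ^ 3 ≤ ((triples A).card : ℝ) := by
  obtain ⟨c₀, hc, A₀, h⟩ := h3
  refine ⟨c₀, hc, ?_⟩
  filter_upwards [eventually_ge_atTop A₀] with A hA
  rw [card_triples]
  exact h A hA

open Classical in
theorem to_zero (hd : ∃ c₀ : ℝ, 0 < c₀ ∧ ∀ᶠ A : ℕ in atTop, c₀ * (A : ℝ) ^ 3 ≤ ((triples A).card : ℝ))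
    (Q : ℕ → ℤ → ℤ → ℤ → Prop)
    (h : ∀ η : ℝ, 0 < η → ∀ᶠ A : ℕ in atTop,
      (((triples A).filter (fun t => Q A t.1 t.2.1 t.2.2)).card : ℝ) ≤ η * (A : ℝ) ^ 3) :
    Tendsto (fun A : ℕ => proportion A (Q A)) atTop (𝓝 0) := by
  obtain ⟨c₀, hc, hd⟩ := hd
  rw [Metric.tendsto_nhds]
  intro ε hε
  filter_upwards [h (c₀ * (ε / 2)) (by positivity), hd, eventually_gt_atTop 0] with A h1 h2 h3
  have hA : (0 : ℝ) < A := by exact_mod_cast h3
  have hT : 0 < ((triples A).card : ℝ) := lt_of_lt_of_le (by positivity) h2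
  have h4 : proportion A (Q A) ≤ ε / 2 := by
    unfold proportion
    rw [div_le_iff₀ hT]
    calc _ ≤ _ := h1
      _ = ε / 2 * (c₀ * (A : ℝ) ^ 3) := by ring
      _ ≤ _ := mul_le_mul_of_nonneg_left h2 (by positivity)
  have h5 : 0 ≤ proportion A (Q A) := by
    unfold proportion
    positivity
  rw [Real.dist_eq, sub_zero, abs_of_nonneg h5]
  linarith

open Classical in
theorem to_one (hd : ∃ c₀ : ℝ, 0 < c₀ ∧ ∀ᶠ A : ℕ in atTop, c₀ * (A : ℝ) ^ 3 ≤ ((triples A).card : ℝ))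
    (Q : ℕ → ℤ → ℤ → ℤ → Prop)
    (h : ∀ η : ℝ, 0 < η → ∀ᶠ A : ℕ in atTop,
      (((triples A).filter (fun t => ¬ Q A t.1 t.2.1 t.2.2)).card : ℝ) ≤ η * (A : ℝ) ^ 3) :
    Tendsto (fun A : ℕ => proportion A (Q A)) atTop (𝓝 1) := by
  have h1 := to_zero hd (fun A a b c => ¬ Q A a b c) (by
    intro η hη
    filter_upwards [h η hη] with A hA
    convert hA)
  have h2 : Tendsto (fun A : ℕ => 1 - proportion A (fun a b c => ¬ Q A a b c)) atTop (𝓝 1) := by
    simpa using h1.const_sub 1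
  refine h2.congr' ?_
  obtain ⟨c₀, hc, hd⟩ := hd
  filter_upwards [hd, eventually_gt_atTop 0] with A h2 h3
  have hA : (0 : ℝ) < A := by exact_mod_cast h3
  have hT : 0 < ((triples A).card : ℝ) := lt_of_lt_of_le (by positivity) h2
  unfold proportion
  rw [sub_eq_iff_eq_add, ← add_div, eq_comm, div_eq_one_iff_eq hT.ne', ← Nat.cast_add]
  have h5 := Finset.card_filter_add_card_filter_not (s := triples A)
    (fun t => Q A t.1 t.2.1 t.2.2)
  have h6 : ((triples A).filter (fun t => Q A t.1 t.2.1 t.2.2)).card +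
      ((triples A).filter (fun t => ¬ Q A t.1 t.2.1 t.2.2)).card = (triples A).card := by
    convert h5
  rw [← h6]
  congr 1
  congr!

open Classical in
theorem int_small (h2 : S_SHORT) (X : ℕ → ℝ)
    (hX : ∀ η : ℝ, 0 < η → ∀ᶠ A : ℕ in atTop, X A ^ 2 ≤ η * A) (η : ℝ) (hη : 0 < η) :
    ∀ᶠ A : ℕ in atTop, (((triples A).filter
      (fun t => IntegerSolution (X A) t.1 t.2.1 t.2.2)).card : ℝ) ≤ η * (A : ℝ) ^ 3 := by
  obtain ⟨C, hC, h⟩ := h2
  filter_upwards [hX 1 one_pos, hX (η / (C + 1)) (by positivity), eventually_gt_atTop 0]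
    with A h3 h4 h5
  have hA : (1 : ℝ) ≤ A := by exact_mod_cast h5
  have hA0 : (0 : ℝ) < A := by linarith
  have hXA : X A ≤ A := by
    have : X A ^ 2 ≤ (A : ℝ) ^ 2 := by nlinarith
    exact (abs_le_of_sq_le_sq' this hA0.le).2
  by_cases hX1 : X A < 1
  · have : ((triples A).filter (fun t => IntegerSolution (X A) t.1 t.2.1 t.2.2)) = ∅ := by
      rw [Finset.filter_eq_empty_iff]
      rintro t - ⟨x, y, z, hne, -, hm⟩
      apply hne
      have h6 : ((max |x| (max |y| |z|) : ℤ) : ℝ) < 1 := lt_of_le_of_lt hm hX1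
      have h7 : max |x| (max |y| |z|) < 1 := by exact_mod_cast h6
      rw [max_lt_iff, max_lt_iff, Int.abs_lt_one_iff, Int.abs_lt_one_iff, Int.abs_lt_one_iff] at h7
      exact h7
    rw [this, card_empty, Nat.cast_zero]
    positivity
  · push Not at hX1
    obtain ⟨R, hR⟩ : ∃ R : ℕ, R = ⌊X A⌋₊ := ⟨_, rfl⟩
    have hR1 : 1 ≤ R := by
      rw [hR]
      exact Nat.le_floor (by simpa using hX1)
    have hRX : (R : ℝ) ≤ X A := by
      rw [hR]
      exact Nat.floor_le (by linarith)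
    have hRA : R ≤ A := by
      have : (R : ℝ) ≤ A := hRX.trans hXA
      exact_mod_cast this
    have h6 := h A R hR1 hRA
    rw [card_eq]
    have h7 : ((V3 A).filter (fun a => Adm a ∧ IntegerSolution (X A) (a 0) (a 1) (a 2))).card ≤
        ((V3 A).filter (fun a => ∃ v : Fin 3 → ℤ, v ≠ 0 ∧ (∀ i, |v i| ≤ R) ∧ dt a v = 0)).card := by
      refine Finset.card_le_card ?_
      intro a ha
      rw [mem_filter] at ha ⊢
      refine ⟨ha.1, ?_⟩
      obtain ⟨x, y, z, hne, he, hm⟩ := ha.2.2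
      have h8 : max |x| (max |y| |z|) ≤ (R : ℤ) := by
        have h9 : ((max |x| (max |y| |z|)).toNat : ℝ) ≤ X A := by
          have : ((max |x| (max |y| |z|)).toNat : ℤ) = max |x| (max |y| |z|) :=
            Int.toNat_of_nonneg (le_max_of_le_left (abs_nonneg _))
          have h10 : (((max |x| (max |y| |z|)).toNat : ℤ) : ℝ) =
              ((max |x| (max |y| |z|) : ℤ) : ℝ) := by rw [this]
          rw [Int.cast_natCast] at h10
          rw [h10]
          exact hm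
        have h11 := Nat.le_floor h9
        rw [← hR] at h11
        exact Int.toNat_le.1 h11
      rw [max_le_iff, max_le_iff] at h8
      refine ⟨![x, y, z], ?_, ?_, ?_⟩
      · intro h0
        apply hne
        have e0 := congrFun h0 0
        have e1 := congrFun h0 1
        have e2 := congrFun h0 2
        simp at e0 e1 e2
        exact ⟨e0, e1, e2⟩
      · intro i
        fin_cases i
        · exact h8.1
        · exact h8.2.1
        · exact h8.2.2
      · simpa [dt] using he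
    have h8 : (((V3 A).filter (fun a => Adm a ∧
        IntegerSolution (X A) (a 0) (a 1) (a 2))).card : ℝ) ≤ C * (A : ℝ) ^ 2 * (R : ℝ) ^ 2 :=
      le_trans (by exact_mod_cast h7) h6
    refine h8.trans ?_
    have h9 : (R : ℝ) ^ 2 ≤ X A ^ 2 := pow_le_pow_left₀ (Nat.cast_nonneg _) hRX 2
    calc C * (A : ℝ) ^ 2 * (R : ℝ) ^ 2 ≤ C * (A : ℝ) ^ 2 * (η / (C + 1) * A) := by
          gcongr
          exact h9.trans h4
      _ = (C / (C + 1)) * (η * (A : ℝ) ^ 3) := by field_simp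
      _ ≤ 1 * (η * (A : ℝ) ^ 3) := by
          refine mul_le_mul_of_nonneg_right ?_ (by positivity)
          rw [div_le_one (by positivity)]
          linarith
      _ = _ := one_mul _

open Classical in
theorem prime_bad (h1 : S_MAINT) : ∃ κ : ℕ, ∀ η : ℝ, 0 < η → ∀ᶠ A : ℕ in atTop,
    (((triples A).filter (fun t => ¬ PrimeSolution ((A : ℝ) ^ (1 / 2 : ℝ) * Real.log A ^ κ)
      t.1 t.2.1 t.2.2)).card : ℝ) ≤ η * (A : ℝ) ^ 3 := by
  obtain ⟨κ, h⟩ := h1
  refine ⟨κ, fun η hη => ?_⟩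
  obtain ⟨A₀, hA₀⟩ := h η hη
  filter_upwards [eventually_ge_atTop A₀] with A hA
  have h3 := hA₀ A hA
  have h4 := card_eq A (fun a b c => ¬ PrimeSolution ((A : ℝ) ^ (1 / 2 : ℝ) * Real.log A ^ κ) a b c)
  have h5 : ((triples A).filter (fun t => ¬ PrimeSolution ((A : ℝ) ^ (1 / 2 : ℝ) * Real.log A ^ κ)
      t.1 t.2.1 t.2.2)).card = ((V3 A).filter (fun a => Adm a ∧
        ¬ PrimeSolution ((A : ℝ) ^ (1 / 2 : ℝ) * Real.log A ^ κ) (a 0) (a 1) (a 2))).card := by
    convert h4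
  rw [h5]
  refine le_trans ?_ h3
  have : ((V3 A).filter (fun a => Adm a ∧ ¬ PrimeSolution ((A : ℝ) ^ (1 / 2 : ℝ) * Real.log A ^ κ)
      (a 0) (a 1) (a 2))).card ≤ ((V3 A).filter (fun a => Adm a ∧
    ¬ PSol ((A : ℝ) ^ (1 / 2 : ℝ) * Real.log A ^ κ) a)).card := by
    refine Finset.card_le_card ?_
    intro a ha
    rw [mem_filter] at ha ⊢
    refine ⟨ha.1, ha.2.1, fun hP => ha.2.2 ?_⟩
    obtain ⟨P, hP, hP2⟩ := hP
    refine ⟨P 0, P 1, P 2, (hP 0).1, (hP 1).1, (hP 2).1, hP2, ?_⟩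
    rw [Nat.cast_max, Nat.cast_max]
    exact max_le (hP 0).2 (max_le (hP 1).2 (hP 2).2)
  exact_mod_cast this

/-- few triples have all coordinates small -/
theorem box_small (A : ℕ) (τ : ℝ) (hτ : 0 < τ) (hA : 1 ≤ τ * A) :
    (((triples A).filter (fun t => ((max 3 (max |t.1| (max |t.2.1| |t.2.2|)) : ℤ) : ℝ) ≤
      τ * A)).card : ℝ) ≤ 27 * τ ^ 3 * (A : ℝ) ^ 3 := by
  classical
  obtain ⟨R, hR⟩ : ∃ R : ℕ, R = ⌊τ * A⌋₊ := ⟨_, rfl⟩
  have hRX : (R : ℝ) ≤ τ * A := by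
    rw [hR]
    exact Nat.floor_le (by linarith)
  have h1 : ((triples A).filter (fun t => ((max 3 (max |t.1| (max |t.2.1| |t.2.2|)) : ℤ) : ℝ) ≤
      τ * A)) ⊆ (Icc (-(R : ℤ)) R ×ˢ Icc (-(R : ℤ)) R ×ˢ Icc (-(R : ℤ)) R) := by
    intro t ht
    rw [mem_filter] at ht
    have h2 := ht.2
    have key : ∀ x : ℤ, (|x| : ℤ) ≤ max 3 (max |t.1| (max |t.2.1| |t.2.2|)) →
        x ∈ Icc (-(R : ℤ)) R := by
      intro x hx
      have h3 : ((|x| : ℤ) : ℝ) ≤ τ * A := le_trans (by exact_mod_cast hx) h2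
      have h4 : ((x.natAbs : ℕ) : ℝ) ≤ τ * A := by
        rw [Nat.cast_natAbs]
        exact h3
      have h5 := Nat.le_floor h4
      rw [← hR] at h5
      rw [mem_Icc]
      constructor <;> omega
    rw [mem_product, mem_product]
    exact ⟨key _ (le_max_of_le_right (le_max_left _ _)),
      key _ (le_max_of_le_right (le_max_of_le_right (le_max_left _ _))),
      key _ (le_max_of_le_right (le_max_of_le_right (le_max_right _ _)))⟩
  have h2 := Finset.card_le_card h1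
  rw [card_product, card_product, Int.card_Icc] at h2
  have h3 : ((R : ℤ) + 1 - -(R : ℤ)).toNat = 2 * R + 1 := by omega
  rw [h3] at h2
  have h4 : (((triples A).filter (fun t => ((max 3 (max |t.1| (max |t.2.1| |t.2.2|)) : ℤ) : ℝ) ≤
      τ * A)).card : ℝ) ≤ (2 * R + 1) * ((2 * R + 1) * (2 * R + 1)) := by exact_mod_cast h2
  have h5 : (2 * (R : ℝ) + 1) ≤ 3 * (τ * A) := by linarith
  calc _ ≤ _ := h4
    _ = (2 * (R : ℝ) + 1) ^ 3 := by ring
    _ ≤ (3 * (τ * A)) ^ 3 := pow_le_pow_left₀ (by positivity) h5 3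
    _ = _ := by ring

theorem large_pow (κ : ℕ) (μ : ℝ) (hμ : 1 / 2 < μ) (τ : ℝ) (hτ : 0 < τ) :
    ∀ᶠ A : ℕ in atTop, (A : ℝ) ^ (1 / 2 : ℝ) * Real.log A ^ κ ≤ (τ * A) ^ μ := by
  have h1 := isLittleO_log_rpow_rpow_atTop (κ : ℝ) (s := μ - 1 / 2) (by linarith)
  have h2 := h1.comp_tendsto tendsto_natCast_atTop_atTop
  have h3 := h2.bound (c := τ ^ μ) (by positivity)
  filter_upwards [h3, eventually_gt_atTop 0] with A h4 h5
  have hA1 : (1 : ℝ) ≤ A := by exact_mod_cast h5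
  have hA : (0 : ℝ) < A := by linarith
  simp only [Function.comp_apply, Real.rpow_natCast] at h4
  rw [Real.norm_of_nonneg (pow_nonneg (Real.log_nonneg hA1) κ),
    Real.norm_of_nonneg (Real.rpow_nonneg hA.le _)] at h4
  calc (A : ℝ) ^ (1 / 2 : ℝ) * Real.log A ^ κ
      ≤ (A : ℝ) ^ (1 / 2 : ℝ) * (τ ^ μ * (A : ℝ) ^ (μ - 1 / 2)) := by gcongr
    _ = τ ^ μ * ((A : ℝ) ^ (1 / 2 : ℝ) * (A : ℝ) ^ (μ - 1 / 2)) := by ring
    _ = τ ^ μ * (A : ℝ) ^ μ := by
        rw [← Real.rpow_add hA]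
        congr 2
        ring
    _ = (τ * A) ^ μ := by rw [Real.mul_rpow hτ.le hA.le]

open Classical in
theorem four_bad (h1 : S_MAINT) (μ : ℝ) (hμ : 1 / 2 < μ) (η : ℝ) (hη : 0 < η) :
    ∀ᶠ A : ℕ in atTop, (((triples A).filter
      (fun t => ¬ SmallSolution μ t.1 t.2.1 t.2.2 0)).card : ℝ) ≤ η * (A : ℝ) ^ 3 := by
  obtain ⟨κ, h⟩ := prime_bad h1
  obtain ⟨τ, hτ⟩ : ∃ τ : ℝ, τ = min 1 (η / 54) := ⟨_, rfl⟩
  have hτ0 : 0 < τ := by rw [hτ]; exact lt_min one_pos (by positivity)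
  have hτ1 : τ ≤ 1 := by rw [hτ]; exact min_le_left _ _
  have hτ2 : τ ≤ η / 54 := by rw [hτ]; exact min_le_right _ _
  have hτ3 : τ ^ 3 ≤ τ := by
    calc τ ^ 3 ≤ τ ^ 1 := pow_le_pow_of_le_one hτ0.le hτ1 (by norm_num)
      _ = τ := pow_one τ
  filter_upwards [h (η / 2) (by positivity), large_pow κ μ hμ τ hτ0,
    tendsto_natCast_atTop_atTop.eventually_ge_atTop (1 / τ)] with A h3 h4 h5
  have h6 : 1 ≤ τ * A := by
    rw [div_le_iff₀ hτ0] at h5
    linarith
  have h7 := box_small A τ hτ0 h6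
  have hsub : ((triples A).filter (fun t => ¬ SmallSolution μ t.1 t.2.1 t.2.2 0)) ⊆
      ((triples A).filter (fun t => ((max 3 (max |t.1| (max |t.2.1| |t.2.2|)) : ℤ) : ℝ) ≤
        τ * A)) ∪ ((triples A).filter (fun t => ¬ PrimeSolution
          ((A : ℝ) ^ (1 / 2 : ℝ) * Real.log A ^ κ) t.1 t.2.1 t.2.2)) := by
    intro t ht
    rw [mem_filter] at ht
    rw [mem_union, mem_filter, mem_filter]
    by_contra hcon
    push Not at hcon
    obtain ⟨h8, h9⟩ := hcon
    have h10 := h8 ht.1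
    obtain ⟨p, q, r, hp, hq, hr, he, hm⟩ := h9 ht.1
    apply ht.2
    refine ⟨p, q, r, hp, hq, hr, he, ?_⟩
    rw [Int.cast_zero, abs_zero, mul_zero, zero_add]
    refine hm.trans (h4.trans ?_)
    exact Real.rpow_le_rpow (by linarith) h10.le (by linarith)
  have h8 := (Finset.card_le_card hsub).trans (Finset.card_union_le _ _)
  have h9 : (((triples A).filter (fun t => ¬ SmallSolution μ t.1 t.2.1 t.2.2 0)).card : ℝ) ≤
      (((triples A).filter (fun t => ((max 3 (max |t.1| (max |t.2.1| |t.2.2|)) : ℤ) : ℝ) ≤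
        τ * A)).card : ℝ) + (((triples A).filter (fun t => ¬ PrimeSolution
          ((A : ℝ) ^ (1 / 2 : ℝ) * Real.log A ^ κ) t.1 t.2.1 t.2.2)).card : ℝ) := by
    exact_mod_cast h8
  have hA0 : (0 : ℝ) ≤ (A : ℝ) ^ 3 := by positivity
  have h10 : 27 * τ ^ 3 * (A : ℝ) ^ 3 ≤ η / 2 * (A : ℝ) ^ 3 := by
    refine mul_le_mul_of_nonneg_right ?_ hA0
    linarith
  linarith

open Classical in
theorem five_bad (h2 : S_SHORT) (μ : ℝ) (hμ : μ < 1 / 2) (η : ℝ) (hη : 0 < η) :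
    ∀ᶠ A : ℕ in atTop, (((triples A).filter
      (fun t => SmallSolution μ t.1 t.2.1 t.2.2 0)).card : ℝ) ≤ η * (A : ℝ) ^ 3 := by
  have hν0 : 0 ≤ max μ 0 := le_max_right _ _
  have hν1 : max μ 0 < 1 / 2 := max_lt hμ (by norm_num)
  obtain ⟨ν, hν⟩ : ∃ ν : ℝ, ν = max μ 0 := ⟨_, rfl⟩
  have hμν : μ ≤ ν := by rw [hν]; exact le_max_left _ _
  rw [← hν] at hν0 hν1
  have hX : ∀ η : ℝ, 0 < η → ∀ᶠ A : ℕ in atTop, ((A : ℝ) ^ ν) ^ 2 ≤ η * A := by
    intro η hη
    have h1 : Tendsto (fun A : ℕ => (A : ℝ) ^ (1 - 2 * ν)) atTop atTop :=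
      (tendsto_rpow_atTop (by linarith)).comp tendsto_natCast_atTop_atTop
    filter_upwards [h1.eventually_ge_atTop (1 / η), eventually_gt_atTop 0] with A h3 h4
    have hA : (0 : ℝ) < A := by exact_mod_cast h4
    rw [div_le_iff₀ hη] at h3
    have h5 : ((A : ℝ) ^ ν) ^ 2 = (A : ℝ) ^ (2 * ν) := by
      rw [← Real.rpow_natCast, ← Real.rpow_mul hA.le]
      congr 1
      push_cast
      ring
    have h6 : (A : ℝ) ^ (2 * ν) * (A : ℝ) ^ (1 - 2 * ν) = A := by
      rw [← Real.rpow_add hA]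
      have : 2 * ν + (1 - 2 * ν) = 1 := by ring
      rw [this, Real.rpow_one]
    rw [h5]
    calc (A : ℝ) ^ (2 * ν) = (A : ℝ) ^ (2 * ν) * 1 := (mul_one _).symm
      _ ≤ (A : ℝ) ^ (2 * ν) * ((A : ℝ) ^ (1 - 2 * ν) * η) := by gcongr
      _ = η * ((A : ℝ) ^ (2 * ν) * (A : ℝ) ^ (1 - 2 * ν)) := by ring
      _ = η * A := by rw [h6]
  filter_upwards [int_small h2 (fun A => (A : ℝ) ^ ν) hX η hη, eventually_ge_atTop 3]
    with A h3 h4
  refine le_trans ?_ h3
  have : ((triples A).filter (fun t => SmallSolution μ t.1 t.2.1 t.2.2 0)).card ≤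
      ((triples A).filter (fun t => IntegerSolution ((A : ℝ) ^ ν) t.1 t.2.1 t.2.2)).card := by
    refine Finset.card_le_card ?_
    intro t ht
    rw [mem_filter] at ht ⊢
    refine ⟨ht.1, ?_⟩
    obtain ⟨p, q, r, hp, hq, hr, he, hm⟩ := ht.2
    have h5 := ht.1
    simp only [triples, mem_filter, mem_product, mem_Icc] at h5
    obtain ⟨⟨h6, h7, h8⟩, -⟩ := h5
    refine ⟨p, q, r, ?_, he, ?_⟩
    · rintro ⟨h9, -, -⟩
      exact hp.ne_zero (by exact_mod_cast h9)
    · have h9 : (max |(p : ℤ)| (max |(q : ℤ)| |(r : ℤ)|) : ℤ) = ((max p (max q r) : ℕ) : ℤ) := by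
        rw [Nat.abs_cast, Nat.abs_cast, Nat.abs_cast, Nat.cast_max, Nat.cast_max]
      rw [h9, Int.cast_natCast]
      refine hm.trans ?_
      rw [Int.cast_zero, abs_zero, mul_zero, zero_add]
      have h10 : max 3 (max |t.1| (max |t.2.1| |t.2.2|)) ≤ (A : ℤ) := by
        refine max_le (by exact_mod_cast h4) (max_le (abs_le.2 h6) (max_le (abs_le.2 h7)
          (abs_le.2 h8)))
      have h11 : ((max 3 (max |t.1| (max |t.2.1| |t.2.2|)) : ℤ) : ℝ) ≤ A := by exact_mod_cast h10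
      have h12 : (1 : ℝ) ≤ ((max 3 (max |t.1| (max |t.2.1| |t.2.2|)) : ℤ) : ℝ) := by
        have : (1 : ℤ) ≤ max 3 (max |t.1| (max |t.2.1| |t.2.2|)) :=
          le_max_of_le_left (by norm_num)
        exact_mod_cast this
      calc ((max 3 (max |t.1| (max |t.2.1| |t.2.2|)) : ℤ) : ℝ) ^ μ
          ≤ ((max 3 (max |t.1| (max |t.2.1| |t.2.2|)) : ℤ) : ℝ) ^ ν :=
            Real.rpow_le_rpow_of_exponent_le h12 hμν
        _ ≤ (A : ℝ) ^ ν := Real.rpow_le_rpow (by linarith) h11 hν0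
  exact_mod_cast this

theorem fin_ (h1 : S_MAINT) (h2 : S_SHORT) (h3 : S_DENS) : S_FIN := by
  classical
  have hd := one_ h3
  refine ⟨hd, ?_, ?_, ?_, ?_⟩
  · obtain ⟨κ, h⟩ := prime_bad h1
    refine ⟨κ, to_one hd (fun A => PrimeSolution ((A : ℝ) ^ (1 / 2 : ℝ) * Real.log A ^ κ)) ?_⟩
    intro η hη
    filter_upwards [h η hη] with A hA
    convert hA
  · intro ψ hψ
    refine to_zero hd (fun A => IntegerSolution ((A : ℝ) ^ (1 / 2 : ℝ) / ψ A)) ?_
    intro η hη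
    refine int_small h2 (fun A => (A : ℝ) ^ (1 / 2 : ℝ) / ψ A) ?_ η hη
    intro η hη
    filter_upwards [hψ.eventually_ge_atTop (max 1 (1 / η))] with A hA
    have hA1 : 1 ≤ ψ A := (le_max_left _ _).trans hA
    have hA2 : 1 / η ≤ ψ A := (le_max_right _ _).trans hA
    have hA0 : (0 : ℝ) ≤ A := Nat.cast_nonneg _
    have hs : ((A : ℝ) ^ (1 / 2 : ℝ)) ^ 2 = A := by
      rw [← Real.sqrt_eq_rpow, Real.sq_sqrt hA0]
    rw [div_pow, hs, div_le_iff₀ (by positivity)]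
    rw [div_le_iff₀ hη] at hA2
    have h4 : 1 ≤ η * ψ A ^ 2 := by nlinarith
    nlinarith
  · intro μ hμ
    refine to_one hd (fun A a b c => SmallSolution μ a b c 0) ?_
    intro η hη
    filter_upwards [four_bad h1 μ hμ η hη] with A hA
    convert hA
  · intro μ hμ
    exact to_zero hd (fun A a b c => SmallSolution μ a b c 0) (five_bad h2 μ hμ)

end Pool.Agent.N424.LB
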